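import Pool.Agent.Helper99.LZ.Goals

/-!
# Product theorem for HH1 : packet ZST
-/

set_option autoImplicit false

namespace Pool.Agent.Helper92.LZ

open Pool.Agent.Helper99.LZ

variable {V : Type} [AddCommGroup V] [Module ℝ V]

theorem onePos_smul {B : V →ₗ[ℝ] V →ₗ[ℝ] ℝ} (h : OnePos B) {δ : ℝ} (hδ : 0 < δ) :
    OnePos (δ • B) := by
  intro u v huu
  simp only [LinearMap.smul_apply, smul_eq_mul] at huu ⊢
  have h1 : 0 < B u u := by
    by_contra hcon
    have : δ * B u u ≤ 0 := mul_nonpos_of_nonneg_of_nonpos hδ.le (not_lt.1 hcon)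
    linarith
  have h2 := h u v h1
  have h3 : δ ^ 2 * (B u u * B v v) ≤ δ ^ 2 * (B u v) ^ 2 :=
    mul_le_mul_of_nonneg_left h2 (by positivity)
  nlinarith [h3]

/-- rank one -/
theorem onePos_rank {B : V →ₗ[ℝ] V →ₗ[ℝ] ℝ} {t : ℝ} {y : V → ℝ}
    (h : ∀ u v, B u v = t * y u * y v) : OnePos B := by
  intro u v _
  rw [h, h, h]
  exact le_of_eq (by ring)

theorem full_apply (S : Ctx V) (p q : ℤ) (u v : V × ℝ) :
    S.full p q u v = S.D p q u.1 v.1 + u.2 * (S.P p v.1 - S.Q q v.1)
      + v.2 * (S.P p u.1 - S.Q q u.1) + u.2 * v.2 * S.g p q := rfl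

theorem full_zero (S : Ctx V) (p q : ℤ) (u v : V) : S.full p q (u, 0) (v, 0) = S.D p q u v := by
  rw [full_apply]
  simp

theorem onePos_D {S : Ctx V} {p q : ℤ} (h : OnePos (S.full p q)) : OnePos (S.D p q) := by
  intro u v huu
  have h1 := h (u, 0) (v, 0)
  rw [full_zero, full_zero, full_zero] at h1
  exact h1 huu

section

variable {S : Ctx V} {a b : ℤ} {x : V →ₗ[ℝ] ℝ} {δ : ℝ}

/-- the common cumulative function -/
def cf (S : Ctx V) (k : ℤ) : ℝ := S.pr.P k

theorem cf_Q (h : S.HS a b x) (k : ℤ) : S.pr.Q k = cf S k := by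
  have h1 := h.F0 k
  unfold Pr.F Pr.H at h1
  unfold cf
  linarith

theorem H_eq (h : S.HS a b x) (p q : ℤ) : S.pr.H p q = cf S p - cf S q := by
  unfold Pr.H
  rw [cf_Q h]
  rfl

theorem cf_lo (h : S.HS a b x) {k : ℤ} (hk : k < a) : cf S k = 0 := h.lo k hk

theorem cf_hi (h : S.HS a b x) {k : ℤ} (hk : b ≤ k) : cf S k = cf S b := h.hi k hk

theorem cf_lt (h : S.HS a b x) {k : ℤ} (h1 : a ≤ k) (h2 : k ≤ b) : cf S (k - 1) < cf S k := by
  have h3 := h.Lpos k h1 h2
  unfold Pr.L at h3
  unfold cf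
  linarith

theorem cf_step (h : S.HS a b x) (k : ℤ) : cf S (k - 1) ≤ cf S k := by
  rcases lt_or_ge k a with h1 | h1
  · rw [cf_lo h h1, cf_lo h (by omega)]
  · rcases lt_or_ge b k with h2 | h2
    · rw [cf_hi h (k := k) (by omega), cf_hi h (k := k - 1) (by omega)]
    · exact (cf_lt h h1 h2).le

theorem cf_mono (h : S.HS a b x) {k l : ℤ} (hkl : k ≤ l) : cf S k ≤ cf S l := by
  obtain ⟨n, rfl⟩ : ∃ n : ℕ, l = k + n := ⟨(l - k).toNat, by omega⟩
  clear hkl
  induction n with
  | zero => simp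
  | succ n ih =>
    have h1 := cf_step h (k + (n + 1 : ℕ))
    have h2 : k + ((n + 1 : ℕ) : ℤ) - 1 = k + n := by push_cast; ring
    rw [h2] at h1
    exact ih.trans h1

/-- no mass between equal values -/
theorem out_of (h : S.HS a b x) {k l : ℤ} (hkl : k < l) (he : cf S l = cf S k) :
    l < a ∨ b ≤ k := by
  by_contra hcon
  rw [not_or, not_lt, not_le] at hcon
  obtain ⟨h1, h2⟩ := hcon
  have hab := h.ab
  obtain ⟨m, m1, m2, m3, m4⟩ : ∃ m, a ≤ m ∧ m ≤ b ∧ k < m ∧ m ≤ l :=
    ⟨max a (k + 1), by omega, by omega, by omega, by omega⟩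
  have h3 := cf_lt h m1 m2
  have h4 := cf_mono h (show k ≤ m - 1 by omega)
  have h5 := cf_mono h m4
  linarith

theorem zst_P (S : Ctx V) (δ : ℝ) (k : ℤ) : (S.zst δ).pr.P k = (1 + δ) * cf S k := by
  show (S.P k + δ • S.P k) S.Y = (1 + δ) * S.P k S.Y
  rw [LinearMap.add_apply, LinearMap.smul_apply, smul_eq_mul]
  ring

theorem zst_Q (h : S.HS a b x) (δ : ℝ) (k : ℤ) :
    (S.zst δ).pr.Q k = cf S k + δ * cf S (k - 1) := by
  rw [← cf_Q h k, ← cf_Q h (k - 1)]
  show (S.Q k + δ • S.Q (k - 1)) S.X = S.Q k S.X + δ * S.Q (k - 1) S.X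
  rw [LinearMap.add_apply, LinearMap.smul_apply, smul_eq_mul]

theorem zst_H (h : S.HS a b x) (δ : ℝ) (p q : ℤ) :
    (S.zst δ).pr.H p q = (cf S p - cf S q) + δ * (cf S p - cf S (q - 1)) := by
  unfold Pr.H
  rw [zst_P, zst_Q h]
  ring

theorem zst_F (h : S.HS a b x) (δ : ℝ) (k : ℤ) :
    (S.zst δ).pr.F k = δ * (cf S k - cf S (k - 1)) := by
  unfold Pr.F
  rw [zst_H h]
  ring

theorem zst_g (h : S.HS a b x) (δ : ℝ) {p q : ℤ} (hpq : q - 1 ≤ p) :
    (S.zst δ).g p q = S.g p q + δ * S.g p (q - 1) := by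
  have h1 : S.g p (q - 1) = cf S p - cf S (q - 1) := by
    unfold Ctx.g
    rw [if_pos (by omega), H_eq h]
  rw [h1]
  unfold Ctx.g
  by_cases hq : q ≤ p
  · rw [if_pos hq, if_pos hq, zst_H h, H_eq h]
  · rw [if_neg hq, if_neg hq]
    have h2 : p = q - 1 := by omega
    show S.G q + δ * S.pr.F (q - 1) = _
    rw [h.F0, h2]
    ring

theorem zst_full (h : S.HS a b x) (δ : ℝ) {p q : ℤ} (hpq : q - 1 ≤ p) :
    (S.zst δ).full p q = S.full p q + δ • S.full p (q - 1) := by
  refine LinearMap.ext fun u => LinearMap.ext fun v => ?_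
  rw [LinearMap.add_apply, LinearMap.add_apply, LinearMap.smul_apply, LinearMap.smul_apply,
    full_apply, full_apply, full_apply, zst_g h δ hpq]
  show (S.D p q + δ • S.D p (q - 1)) u.1 v.1 + u.2 * ((S.P p + δ • S.P p) v.1 -
    (S.Q q + δ • S.Q (q - 1)) v.1) + v.2 * ((S.P p + δ • S.P p) u.1 -
    (S.Q q + δ • S.Q (q - 1)) u.1) + _ = _
  simp only [LinearMap.add_apply, LinearMap.smul_apply, smul_eq_mul]
  ring

theorem sym_full (h : S.Rel) (p q : ℤ) : Sym (S.full p q) := by
  intro u v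
  rw [full_apply, full_apply, h.sym p q u.1 v.1]
  ring

/-- the common row -/
theorem row0 (h : S.HS a b x) {p q : ℤ} (v : V × ℝ) :
    S.full p q (S.Y, 0) v = (S.P p v.1 - S.Q (q - 1) v.1) + v.2 * (cf S p - cf S (q - 1)) := by
  rw [full_apply]
  have h1 := h.DY p q v.1
  have h2 := h.QY q
  have h3 : S.Q (q - 1) S.X = cf S (q - 1) := cf_Q h (q - 1)
  have h4 : S.P p S.Y = cf S p := rfl
  simp only []
  rw [h1, h2, h3, h4]
  ring

theorem row1 (h : S.HS a b x) {p q : ℤ} (hpq : q - 1 ≤ p) (v : V × ℝ) :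
    S.full p (q - 1) (0, 1) v =
      (S.P p v.1 - S.Q (q - 1) v.1) + v.2 * (cf S p - cf S (q - 1)) := by
  rw [full_apply]
  have h1 : S.g p (q - 1) = cf S p - cf S (q - 1) := by
    unfold Ctx.g
    rw [if_pos (by omega), H_eq h]
  rw [h1]
  simp

/-- the levels `≥ -1` -/
theorem zst_lev (hOP : StmtOP) (h : S.HS a b x) (hδ : 0 < δ) {p q : ℤ} (hpq : q - 1 ≤ p) :
    OnePos ((S.zst δ).full p q) := by
  rw [zst_full h δ hpq]
  by_cases hlam : ∀ v : V × ℝ, S.full p q (S.Y, 0) v = 0
  · have e1 : S.pr.H (p + 1) (q - 1) = 0 := by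
      have h1 := hlam (S.X, 0)
      rw [row0 h] at h1
      have h2 := h.PX p
      have h3 : S.Q (q - 1) S.X = cf S (q - 1) := cf_Q h (q - 1)
      have h4 : S.P (p + 1) S.Y = cf S (p + 1) := rfl
      simp only [zero_mul, add_zero] at h1
      rw [h2, h3, h4] at h1
      rw [H_eq h]
      exact h1
    have e2 : S.pr.H p (q - 2) = 0 := by
      have h1 := hlam (S.Y, 0)
      rw [row0 h] at h1
      have h2 := h.QY (q - 1)
      have h3 : S.Q (q - 1 - 1) S.X = cf S (q - 1 - 1) := cf_Q h (q - 1 - 1)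
      have h4 : S.P p S.Y = cf S p := rfl
      simp only [zero_mul, add_zero] at h1
      rw [h2, h3, h4, show q - 1 - 1 = q - 2 by ring] at h1
      rw [H_eq h]
      exact h1
    have hf := h.szl p q hpq e1 e2
    rw [H_eq h] at e1 e2
    rcases out_of h (show q - 2 < p by omega) (by linarith) with h5 | h5
    · rcases out_of h (show q - 1 < p + 1 by omega) (by linarith) with h6 | h6
      · -- below the support
        have hf2 := h.szl p (q - 1) (by omega)
          (by rw [H_eq h, cf_lo h h6, cf_lo h (by omega), sub_zero])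
          (by rw [H_eq h, cf_lo h h5, cf_lo h (by omega), sub_zero])
        refine onePos_rank (t := (1 + δ) * cf S (p + 2)) (y := fun u => x u.1) fun u v => ?_
        rw [LinearMap.add_apply, LinearMap.add_apply, LinearMap.smul_apply, LinearMap.smul_apply,
          hf, hf2, H_eq h, H_eq h, cf_lo h (k := q) (by omega), cf_lo h (k := q - 1) (by omega),
          smul_eq_mul]
        ring
      · have := h.ab
        omega
    · -- above the support
      have hz : S.full p q = 0 := by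
        refine LinearMap.ext fun u => LinearMap.ext fun v => ?_
        rw [hf, H_eq h, cf_hi h (k := p + 2) (by omega)]
        rcases out_of h (show q - 1 < p + 1 by omega) (by linarith) with h6 | h6
        · have := h.ab
          omega
        · rw [cf_hi h (k := q) (by omega)]
          simp
      rw [hz, zero_add]
      exact onePos_smul (h.lev p (q - 1) (by omega)) hδ
  · obtain ⟨z, hz⟩ := not_forall.1 hlam
    have h1 := (hOP.2.2.2.1 (V × ℝ) (S.full p q) (S.full p (q - 1)) (S.Y, 0) (0, 1) z 1 δ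
      (sym_full h.toRel p q) (sym_full h.toRel p (q - 1)) (h.lev p q hpq)
      (h.lev p (q - 1) (by omega))
      (fun v => by rw [row0 h, row1 h hpq]) hz
      (by
        rw [row0 h]
        have h2 := h.QY (q - 1)
        have h3 : S.Q (q - 1 - 1) S.X = cf S (q - 1 - 1) := cf_Q h (q - 1 - 1)
        have h4 : S.P p S.Y = cf S p := rfl
        simp only [zero_mul, add_zero]
        rw [h2, h3, h4]
        exact sub_nonneg.2 (cf_mono h (by omega)))
      (by
        rw [row1 h hpq]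
        simp only [map_zero, sub_zero, zero_add, one_mul]
        exact sub_nonneg.2 (cf_mono h hpq))
      zero_le_one hδ.le).1
    rw [one_smul] at h1
    exact h1

/-- **PACKET ZST** -/
theorem zst (hOP : StmtOP) : StmtZST := by
  intro V _ _ S a b x δ h hδ
  have hD : ∀ q, (S.zst δ).D (q - 2) q = δ • S.D (q - 2) (q - 1) := by
    intro q
    show S.D (q - 2) q + δ • S.D (q - 2) (q - 1) = _
    rw [h.lev2 q, zero_add]
  refine
    { sym := ?_
      DX := ?_
      DY := ?_
      PX := ?_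
      QY := ?_
      Gnn := ?_
      Gh := ?_
      reg :=
        { L0 := ?_
          R0 := ?_
          lo := ?_
          hi := ?_
          ab := ?_
          Fpos := ?_ }
      lev2 := ?_
      lev := ?_
      zer2 := ?_
      zer := ?_ }
  · intro p q u v
    show (S.D p q + δ • S.D p (q - 1)) u v = (S.D p q + δ • S.D p (q - 1)) v u
    simp only [LinearMap.add_apply, LinearMap.smul_apply]
    rw [h.sym p q u v, h.sym p (q - 1) u v]
  · intro p q v
    show (S.D p q + δ • S.D p (q - 1)) S.X v = (S.P (p + 1) + δ • S.P (p + 1)) v -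
      (S.Q q + δ • S.Q (q - 1)) v
    simp only [LinearMap.add_apply, LinearMap.smul_apply, smul_eq_mul]
    rw [h.DX p q v, h.DX p (q - 1) v]
    ring
  · intro p q v
    show (S.D p q + δ • S.D p (q - 1)) S.Y v = (S.P p + δ • S.P p) v -
      (S.Q (q - 1) + δ • S.Q (q - 1 - 1)) v
    simp only [LinearMap.add_apply, LinearMap.smul_apply, smul_eq_mul]
    rw [h.DY p q v, h.DY p (q - 1) v]
    ring
  · intro p
    show (S.P p + δ • S.P p) S.X = (S.P (p + 1) + δ • S.P (p + 1)) S.Y
    simp only [LinearMap.add_apply, LinearMap.smul_apply, smul_eq_mul]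
    rw [h.PX p]
  · intro q
    show (S.Q q + δ • S.Q (q - 1)) S.Y = (S.Q (q - 1) + δ • S.Q (q - 1 - 1)) S.X
    simp only [LinearMap.add_apply, LinearMap.smul_apply, smul_eq_mul]
    rw [h.QY q, h.QY (q - 1)]
  · intro q
    show 0 ≤ S.G q + δ * S.pr.F (q - 1)
    rw [h.F0, mul_zero, add_zero]
    exact h.Gnn q
  · intro q
    show (S.zst δ).pr.H (q - 1) q ≤ S.G q + δ * S.pr.F (q - 1)
    have h1 := h.Gh q
    unfold Pr.h at h1
    rw [H_eq h] at h1
    rw [zst_H h, h.F0]
    linarith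
  · intro k
    unfold Pr.L
    rw [zst_P, zst_P, ← mul_sub]
    exact mul_nonneg (by linarith) (sub_nonneg.2 (cf_step h k))
  · intro k
    unfold Pr.R
    rw [zst_Q h, zst_Q h]
    have h1 := cf_step h k
    have h2 := mul_nonneg hδ.le (sub_nonneg.2 (cf_step h (k - 1)))
    linarith
  · intro k hk
    rw [zst_P, zst_Q h, cf_lo h hk, cf_lo h (by omega)]
    simp
  · intro k hk
    rw [zst_P, zst_P, zst_Q h, cf_hi h (k := k) (by omega), cf_hi h (k := k - 1) (by omega),
      cf_hi h (k := b + 1) (by omega)]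
    exact ⟨rfl, by ring⟩
  · have := h.ab
    omega
  · intro k h1 h2
    rw [zst_F h]
    exact mul_pos hδ (sub_pos.2 (cf_lt h h1 (by omega)))
  · intro q
    rw [hD q]
    exact onePos_smul (onePos_D (h.lev (q - 2) (q - 1) (by omega))) hδ
  · intro p q hpq
    exact zst_lev hOP h hδ hpq
  · intro q h1 h2 h3
    rw [zst_F h] at h1 h2 h3
    have g2 : cf S (q - 1) - cf S (q - 1 - 1) = 0 := by
      rcases mul_eq_zero.1 h2 with h4 | h4
      · exact absurd h4 hδ.ne'
      · exact h4
    have g1 : cf S q - cf S (q - 1) = 0 := by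
      rcases mul_eq_zero.1 h1 with h4 | h4
      · exact absurd h4 hδ.ne'
      · exact h4
    have g3 : cf S (q - 2) - cf S (q - 2 - 1) = 0 := by
      rcases mul_eq_zero.1 h3 with h4 | h4
      · exact absurd h4 hδ.ne'
      · exact h4
    rw [hD q]
    have hf := h.szl (q - 2) (q - 1) (by omega)
      (by
        rw [H_eq h, show q - 2 + 1 = q - 1 by ring]
        exact g2)
      (by
        rw [H_eq h, show q - 1 - 2 = q - 2 - 1 by ring]
        exact g3)
    refine LinearMap.ext fun u => LinearMap.ext fun v => ?_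
    have h5 := hf (u, 0) (v, 0)
    rw [full_zero, H_eq h, show q - 2 + 2 = q by ring, g1] at h5
    rw [LinearMap.smul_apply, LinearMap.smul_apply, h5]
    simp
  · intro p q hpq h1 h2 h3
    rw [zst_H h] at h1 h2 h3
    have m1 := cf_mono h (show q ≤ p + 2 by omega)
    have m2 := cf_mono h (show q - 1 ≤ p + 2 by omega)
    have m3 := cf_mono h (show q - 1 ≤ p + 1 by omega)
    have m4 := cf_mono h (show q - 1 - 1 ≤ p + 1 by omega)
    have m5 := cf_mono h (show q - 2 ≤ p by omega)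
    have m6 := cf_mono h (show q - 2 - 1 ≤ p by omega)
    have key : ∀ s t : ℝ, 0 ≤ s → 0 ≤ t → s + δ * t = 0 → s = 0 ∧ t = 0 := by
      intro s t hs ht hst
      have h4 := mul_nonneg hδ.le ht
      have h5 : s = 0 := by linarith
      refine ⟨h5, ?_⟩
      rw [h5, zero_add] at hst
      rcases mul_eq_zero.1 hst with h6 | h6
      · exact absurd h6 hδ.ne'
      · exact h6
    obtain ⟨a1, a2⟩ := key _ _ (sub_nonneg.2 m1) (sub_nonneg.2 m2) h1
    obtain ⟨b1, b2⟩ := key _ _ (sub_nonneg.2 m3) (sub_nonneg.2 m4) h2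
    obtain ⟨c1, c2⟩ := key _ _ (sub_nonneg.2 m5) (sub_nonneg.2 m6) h3
    rw [zst_full h δ hpq]
    have hf := h.szl p q hpq (by rw [H_eq h]; exact b1) (by rw [H_eq h]; exact c1)
    have hf2 := h.szl p (q - 1) (by omega) (by rw [H_eq h]; exact b2)
      (by rw [H_eq h, show q - 1 - 2 = q - 2 - 1 by ring]; exact c2)
    refine LinearMap.ext fun u => LinearMap.ext fun v => ?_
    rw [LinearMap.add_apply, LinearMap.add_apply, LinearMap.smul_apply, LinearMap.smul_apply,
      hf, hf2, H_eq h, H_eq h, a1, a2]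
    simp

end

end Pool.Agent.Helper92.LZ
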